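import Mathlib

set_option autoImplicit false

namespace Pool.Agent.Results.MP_7555fa_al.SolubilizerLaw

/-- The solubilizer of `x` in `G`: the set of all `y` such that the subgroup generated
by `x` and `y` is soluble. -/
def solubilizer {G : Type} [Group G] (x : G) : Set G :=
  {y | Group.IsSolvable (Subgroup.closure ({x, y} : Set G))}

/-- The left-normed commutator `[a₁, a₂, …, aₖ]` of a list, where `[a, b] = a⁻¹ b⁻¹ a b` and
`[a₁, …, aₖ] = [[a₁, …, aₖ₋₁], aₖ]`. -/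
def leftNormed {G : Type} [Group G] : List G → G
  | [] => 1
  | a :: l => l.foldl (fun b c => b⁻¹ * c⁻¹ * b * c) a

/-- `γ_k(G)`: the subgroup generated by all left-normed commutators of weight `k`. -/
def gamma (G : Type) [Group G] (k : ℕ) : Subgroup G :=
  Subgroup.closure {g | ∃ a : Fin k → G, g = leftNormed (List.ofFn a)}

/-! ### The permutations -/

/-- the 8-cycle -/
def x0 : Equiv.Perm (Fin 8) :=
  ⟨![1, 2, 3, 4, 5, 6, 7, 0], ![7, 0, 1, 2, 3, 4, 5, 6], by decide, by decide⟩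

/-- an involution which together with `x0` generates a copy of `PGL(2,7)` -/
def s0 : Equiv.Perm (Fin 8) :=
  ⟨![0, 1, 4, 6, 2, 7, 3, 5], ![0, 1, 4, 6, 2, 7, 3, 5], by decide, by decide⟩

def t0 : Equiv.Perm (Fin 8) :=
  ⟨![0, 7, 6, 5, 4, 3, 2, 1], ![0, 7, 6, 5, 4, 3, 2, 1], by decide, by decide⟩

def h2 : Equiv.Perm (Fin 8) :=
  ⟨![6, 1, 4, 2, 3, 5, 7, 0], ![7, 1, 3, 4, 2, 5, 0, 6], by decide, by decide⟩

def h4 : Equiv.Perm (Fin 8) :=
  ⟨![1, 0, 3, 2, 6, 7, 4, 5], ![1, 0, 3, 2, 6, 7, 4, 5], by decide, by decide⟩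

def h5 : Equiv.Perm (Fin 8) :=
  ⟨![2, 1, 3, 0, 5, 7, 6, 4], ![3, 1, 0, 2, 7, 4, 6, 5], by decide, by decide⟩

def h6 : Equiv.Perm (Fin 8) :=
  ⟨![6, 5, 2, 0, 4, 7, 3, 1], ![3, 7, 2, 6, 4, 1, 0, 5], by decide, by decide⟩

/-- double coset representatives -/
def h : Fin 7 → Equiv.Perm (Fin 8) := ![1, t0, h2, s0, h4, h5, h6]

def fa : Fin 7 → Fin 8 → ℕ :=
  ![![0, 1, 2, 3, 4, 5, 6, 7], ![2, 1, 0, 7, 6, 5, 4, 3], ![5, 4, 1, 4, 6, 2, 3, 6],
    ![0, 3, 3, 6, 3, 0, 6, 4], ![2, 4, 1, 5, 4, 5, 5, 3], ![7, 5, 6, 7, 2, 6, 2, 6],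
    ![0, 2, 2, 2, 4, 0, 7, 1]]

def fj : Fin 7 → Fin 8 → Fin 7 :=
  ![![3, 3, 3, 3, 3, 3, 3, 3], ![6, 6, 6, 6, 6, 6, 6, 6], ![3, 3, 6, 4, 2, 2, 4, 6],
    ![0, 2, 5, 6, 4, 6, 5, 2], ![5, 6, 5, 4, 2, 3, 2, 4], ![4, 3, 6, 6, 3, 4, 5, 5],
    ![1, 5, 2, 3, 4, 3, 2, 5]]

def fb : Fin 7 → Fin 8 → ℕ :=
  ![![0, 0, 0, 0, 0, 0, 0, 0], ![0, 0, 0, 0, 0, 0, 0, 0], ![1, 7, 6, 4, 5, 4, 6, 2],
    ![0, 0, 1, 3, 5, 5, 4, 1], ![5, 4, 0, 7, 3, 4, 6, 3], ![2, 2, 1, 7, 6, 0, 7, 6],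
    ![2, 2, 7, 3, 1, 5, 2, 3]]

lemma x0_pow8 : x0 ^ 8 = 1 := by decide

lemma key_mul : ∀ (j : Fin 7) (k : Fin 8),
    h j * x0 ^ (k : ℕ) * s0 = x0 ^ (fa j k) * h (fj j k) * x0 ^ (fb j k) := by
  decide


/-! ### A certificate for insolubility -/

lemma comm_triple {A : Type} [CommGroup A] (a b : A)
    (ha : a ^ 8 = 1) (hb : b ^ 3 = 1) (hab : (a * b) ^ 7 = 1) : a = 1 ∧ b = 1 := by
  have h1 : a ^ 7 * b ^ 7 = 1 := by rw [← mul_pow]; exact hab
  have h2 : a ^ 21 = 1 := by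
    have : (a ^ 7 * b ^ 7) ^ 3 = a ^ 21 * (b ^ 3) ^ 7 := by
      rw [mul_pow, ← pow_mul, ← pow_mul, ← pow_mul]
    rw [h1, hb] at this
    simpa using this.symm
  have h3 : a = 1 := by
    have : a ^ 64 = a ^ 63 * a := by rw [← pow_succ]
    have e1 : a ^ 64 = (a ^ 8) ^ 8 := by rw [← pow_mul]
    have e2 : a ^ 63 = (a ^ 21) ^ 3 := by rw [← pow_mul]
    rw [e1, e2, ha, h2] at this
    simpa using this.symm
  subst h3
  refine ⟨rfl, ?_⟩
  have h4 : b ^ 7 = 1 := by simpa using h1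
  have : b ^ 7 = (b ^ 3) ^ 2 * b := by rw [← pow_mul, ← pow_succ]
  rw [h4, hb] at this
  simpa using this.symm

lemma triple_step {K : Type} [Group K] (D : Subgroup K) (a b : K) (haD : a ∈ D) (hbD : b ∈ D)
    (ha : a ^ 8 = 1) (hb : b ^ 3 = 1) (hab : (a * b) ^ 7 = 1) : a ∈ ⁅D, D⁆ ∧ b ∈ ⁅D, D⁆ := by
  have key : ∀ g : D, Abelianization.of g = 1 → (g : K) ∈ ⁅D, D⁆ := by
    intro g hg
    rw [← Subgroup.map_subtype_commutator]
    refine ⟨g, ?_, rfl⟩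
    have : g ∈ (Abelianization.of (G := D)).ker := hg
    rwa [Abelianization.ker_of] at this
  have hA : (⟨a, haD⟩ : D) ^ 8 = 1 := Subtype.ext (by simpa using ha)
  have hB : (⟨b, hbD⟩ : D) ^ 3 = 1 := Subtype.ext (by simpa using hb)
  have hAB : ((⟨a, haD⟩ : D) * ⟨b, hbD⟩) ^ 7 = 1 := Subtype.ext (by simpa using hab)
  have := comm_triple (Abelianization.of (⟨a, haD⟩ : D)) (Abelianization.of (⟨b, hbD⟩ : D))
    (by rw [← map_pow, hA, map_one]) (by rw [← map_pow, hB, map_one])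
    (by rw [← map_mul, ← map_pow, hAB, map_one])
  exact ⟨key _ this.1, key _ this.2⟩

/-- In a soluble group there are no elements `a`, `b ≠ 1` with `a⁸ = b³ = (ab)⁷ = 1`. -/
lemma no_triple {K : Type} [Group K] (hK : Group.IsSolvable K) (a b : K)
    (ha : a ^ 8 = 1) (hb : b ^ 3 = 1) (hab : (a * b) ^ 7 = 1) : b = 1 := by
  have hn : ∀ n, a ∈ derivedSeries K n ∧ b ∈ derivedSeries K n := by
    intro n
    induction n with
    | zero => simp
    | succ n ih => exact triple_step _ a b ih.1 ih.2 ha hb hab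
  obtain ⟨n, hn'⟩ := (Group.isSolvable_def K).1 hK
  have := (hn n).2
  rwa [hn', Subgroup.mem_bot] at this

lemma not_solvable_of_triple {K : Type} [Group K] (S : Subgroup K) (a b : K) (haS : a ∈ S)
    (hbS : b ∈ S) (ha : a ^ 8 = 1) (hb : b ^ 3 = 1) (hab : (a * b) ^ 7 = 1) (hb1 : b ≠ 1) :
    ¬ Group.IsSolvable S := by
  intro hS
  have := no_triple hS (⟨a, haS⟩ : S) ⟨b, hbS⟩ (Subtype.ext (by simpa using ha))
    (Subtype.ext (by simpa using hb)) (Subtype.ext (by simpa using hab))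
  exact hb1 (congrArg Subtype.val this)

/-! ### The group -/

/-- `⟨x0, s0⟩`, a copy of `PGL(2,7)` -/
def G0 : Subgroup (Equiv.Perm (Fin 8)) := Subgroup.closure {x0, s0}

lemma x0_mem : x0 ∈ G0 := Subgroup.subset_closure (by simp)
lemma s0_mem : s0 ∈ G0 := Subgroup.subset_closure (by simp)

lemma form_mul_s {g : Equiv.Perm (Fin 8)}
    (hg : ∃ (i : ℕ) (j : Fin 7) (k : ℕ), g = x0 ^ i * h j * x0 ^ k) :
    ∃ (i : ℕ) (j : Fin 7) (k : ℕ), g * s0 = x0 ^ i * h j * x0 ^ k := by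
  obtain ⟨i, j, k, rfl⟩ := hg
  have hk : x0 ^ k = x0 ^ (k % 8) := by
    conv_lhs => rw [← Nat.div_add_mod k 8, pow_add, pow_mul, x0_pow8, one_pow, one_mul]
  have := key_mul j ⟨k % 8, Nat.mod_lt _ (by norm_num)⟩
  refine ⟨i + fa j ⟨k % 8, Nat.mod_lt _ (by norm_num)⟩, fj j ⟨k % 8, Nat.mod_lt _ (by norm_num)⟩,
    fb j ⟨k % 8, Nat.mod_lt _ (by norm_num)⟩, ?_⟩
  rw [pow_add, hk, mul_assoc, mul_assoc, ← mul_assoc (h j)]
  simp only at this
  rw [this]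
  group

lemma mem_form {g : Equiv.Perm (Fin 8)} (hg : g ∈ G0) :
    ∃ (i : ℕ) (j : Fin 7) (k : ℕ), g = x0 ^ i * h j * x0 ^ k := by
  have hs : s0⁻¹ = s0 := by decide
  have hx : x0⁻¹ = x0 ^ 7 := by decide
  induction hg using Subgroup.closure_induction_right with
  | one => exact ⟨0, 0, 0, by simp [h]⟩
  | mul_right g _ y hy ih =>
    rcases hy with rfl | rfl
    · obtain ⟨i, j, k, rfl⟩ := ih
      exact ⟨i, j, k + 1, by rw [pow_succ, ← mul_assoc]⟩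
    · exact form_mul_s ih
  | mul_inv_cancel g _ y hy ih =>
    rcases hy with rfl | rfl
    · obtain ⟨i, j, k, rfl⟩ := ih
      exact ⟨i, j, k + 7, by rw [hx, pow_add, ← mul_assoc]⟩
    · rw [hs]
      exact form_mul_s ih


set_option maxRecDepth 100000 in
lemma cert (S : Subgroup (Equiv.Perm (Fin 8))) (hx : x0 ∈ S) (j : Fin 7) (hj : 2 ≤ j)
    (hh : h j ∈ S) :
    ∃ a ∈ S, ∃ b ∈ S, a ^ 8 = 1 ∧ b ^ 3 = 1 ∧ (a * b) ^ 7 = 1 ∧ b ≠ 1 := by
  have hxx : x0 * x0 ∈ S := mul_mem hx hx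
  have h3 : ∀ j : Fin 7, 2 ≤ j → j = 2 ∨ j = 3 ∨ j = 4 ∨ j = 5 ∨ j = 6 := by decide
  rcases h3 j hj with rfl | rfl | rfl | rfl | rfl
  · exact ⟨x0 * x0, hxx, h2, hh, by decide, by decide, by decide, by decide⟩
  · exact ⟨x0 * s0, mul_mem hx hh, x0 * x0 * s0 * (x0 * x0 * s0),
      mul_mem (mul_mem hxx hh) (mul_mem hxx hh), by decide, by decide, by decide, by decide⟩
  · exact ⟨x0 * x0, hxx, x0 * h4 * (x0 * h4), mul_mem (mul_mem hx hh) (mul_mem hx hh),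
      by decide, by decide, by decide, by decide⟩
  · exact ⟨x0 * x0 * x0 * h5 * x0, mul_mem (mul_mem (mul_mem hxx hx) hh) hx, h5, hh,
      by decide, by decide, by decide, by decide⟩
  · exact ⟨x0 * x0, hxx, h6, hh, by decide, by decide, by decide, by decide⟩

/-- the element `x0` of `G0` -/
def xG : G0 := ⟨x0, x0_mem⟩

/-- the dihedral subgroup of order 16 consists of these elements -/
def IsDih (g : Equiv.Perm (Fin 8)) : Prop :=
  ∃ (i : Fin 8) (e : Fin 2), g = x0 ^ (i : ℕ) * t0 ^ (e : ℕ)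

lemma pow_mod8 (k : ℕ) : x0 ^ k = x0 ^ (k % 8) := by
  conv_lhs => rw [← Nat.div_add_mod k 8, pow_add, pow_mul, x0_pow8, one_pow, one_mul]

lemma isDih_of_form (i k : ℕ) (j : Fin 7) (hj : j < 2) : IsDih (x0 ^ i * h j * x0 ^ k) := by
  have hj0 : ∀ j : Fin 7, j < 2 → j = 0 ∨ j = 1 := by decide
  have hj' := hj0 j hj
  have ht : ∀ k : Fin 8, t0 * x0 ^ (k : ℕ) = x0 ^ (8 - (k : ℕ)) * t0 := by decide
  rcases hj' with rfl | rfl
  · refine ⟨⟨(i + k) % 8, Nat.mod_lt _ (by norm_num)⟩, 0, ?_⟩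
    simp only [h, Matrix.cons_val_zero, mul_one, Fin.val_zero, pow_zero]
    rw [← pow_add, pow_mod8]
  · refine ⟨⟨(i + (8 - k % 8)) % 8, Nat.mod_lt _ (by norm_num)⟩, 1, ?_⟩
    have := ht ⟨k % 8, Nat.mod_lt _ (by norm_num)⟩
    simp only at this
    have h1 : h 1 = t0 := rfl
    rw [h1, pow_mod8 k, mul_assoc, this, ← mul_assoc, ← pow_add, pow_mod8 (i + _)]
    simp

lemma sol_isDih (y : G0) (hy : y ∈ solubilizer xG) : IsDih (y : Equiv.Perm (Fin 8)) := by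
  obtain ⟨i, j, k, hf⟩ := mem_form y.2
  by_cases hj : j < 2
  · rw [hf]; exact isDih_of_form i k j hj
  · exfalso
    set S : Subgroup G0 := Subgroup.closure {xG, y} with hS
    have hxS : xG ∈ S := Subgroup.subset_closure (by simp)
    have hyS : y ∈ S := Subgroup.subset_closure (by simp)
    have hx' : x0 ∈ S.map G0.subtype := ⟨xG, hxS, rfl⟩
    have hy' : (y : Equiv.Perm (Fin 8)) ∈ S.map G0.subtype := ⟨y, hyS, rfl⟩
    have hhj : h j ∈ S.map G0.subtype := by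
      have : h j = (x0 ^ i)⁻¹ * y * (x0 ^ k)⁻¹ := by rw [hf]; group
      rw [this]
      exact mul_mem (mul_mem (inv_mem (pow_mem hx' i)) hy') (inv_mem (pow_mem hx' k))
    obtain ⟨a, ⟨a', ha'S, rfl⟩, b, ⟨b', hb'S, rfl⟩, h1, h2, h3, h4⟩ :=
      cert _ hx' j (not_lt.1 hj) hhj
    refine not_solvable_of_triple S a' b' ha'S hb'S ?_ ?_ ?_ ?_ hy
    · exact Subtype.ext (by simpa using h1)
    · exact Subtype.ext (by simpa using h2)
    · exact Subtype.ext (by simpa using h3)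
    · rintro rfl
      exact h4 (by simp)

/-- the commutator `[b, c] = b⁻¹ c⁻¹ b c` -/
def cm {G : Type} [Group G] (b c : G) : G := b⁻¹ * c⁻¹ * b * c

lemma cm1 : ∀ (i j : Fin 8) (e f : Fin 2), ∃ m : Fin 4,
    cm (x0 ^ (i : ℕ) * t0 ^ (e : ℕ)) (x0 ^ (j : ℕ) * t0 ^ (f : ℕ)) = x0 ^ (2 * (m : ℕ)) := by
  decide

lemma cm2 : ∀ (m : Fin 4) (j : Fin 8) (f : Fin 2), ∃ n : Fin 2,
    cm (x0 ^ (2 * (m : ℕ))) (x0 ^ (j : ℕ) * t0 ^ (f : ℕ)) = x0 ^ (4 * (n : ℕ)) := by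
  decide

lemma cm3 : ∀ (n : Fin 2) (j : Fin 8) (f : Fin 2),
    cm (x0 ^ (4 * (n : ℕ))) (x0 ^ (j : ℕ) * t0 ^ (f : ℕ)) = 1 := by
  decide

lemma cm_dih {a b c d : Equiv.Perm (Fin 8)} (ha : IsDih a) (hb : IsDih b) (hc : IsDih c)
    (hd : IsDih d) : cm (cm (cm a b) c) d = 1 := by
  obtain ⟨i, e, rfl⟩ := ha
  obtain ⟨j, f, rfl⟩ := hb
  obtain ⟨k, g, rfl⟩ := hc
  obtain ⟨l, m, rfl⟩ := hd
  obtain ⟨p, hp⟩ := cm1 i j e f
  rw [hp]
  obtain ⟨q, hq⟩ := cm2 p k g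
  rw [hq]
  exact cm3 q l m

lemma foldl_one {G : Type} [Group G] (l : List G) :
    l.foldl (fun b c => b⁻¹ * c⁻¹ * b * c) (1 : G) = 1 := by
  induction l with
  | nil => rfl
  | cons a l ih => simpa using ih

lemma law (l : List G0) (hl : 4 ≤ l.length) (hm : ∀ y ∈ l, y ∈ solubilizer xG) :
    leftNormed l = 1 := by
  match l, hl, hm with
  | a :: b :: c :: d :: l, _, hm =>
    have h1 : cm (cm (cm a b) c) d = 1 := by
      apply Subtype.ext
      have := cm_dih (sol_isDih a (hm a (by simp))) (sol_isDih b (hm b (by simp)))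
        (sol_isDih c (hm c (by simp))) (sol_isDih d (hm d (by simp)))
      simpa [cm] using this
    show (l.foldl (fun b c => b⁻¹ * c⁻¹ * b * c) (cm (cm (cm a b) c) d)) = 1
    rw [h1]
    exact foldl_one l

lemma foldl_fix {G : Type} [Group G] (a b : G) (hab : a⁻¹ * b⁻¹ * a * b = a) (n : ℕ) :
    (List.replicate n b).foldl (fun b c => b⁻¹ * c⁻¹ * b * c) a = a := by
  induction n with
  | zero => rfl
  | succ n ih =>
    rw [List.replicate_succ, List.foldl_cons, hab, ih]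

lemma gamma_ne (k : ℕ) (hk : 1 ≤ k) : gamma G0 k ≠ ⊥ := by
  obtain ⟨n, rfl⟩ : ∃ n, k = n + 1 := ⟨k - 1, by omega⟩
  set a : G0 := ⟨x0 * s0 * x0 * x0, mul_mem (mul_mem (mul_mem x0_mem s0_mem) x0_mem) x0_mem⟩
  set b : G0 := ⟨x0 * x0 * s0 * x0 * x0 * s0,
    mul_mem (mul_mem (mul_mem (mul_mem (mul_mem x0_mem x0_mem) s0_mem) x0_mem) x0_mem) s0_mem⟩
  have hab : a⁻¹ * b⁻¹ * a * b = a := Subtype.ext (by decide)
  have ha : a ≠ 1 := fun h => absurd (congrArg Subtype.val h) (by decide)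
  intro hbot
  apply ha
  rw [← Subgroup.mem_bot, ← hbot]
  apply Subgroup.subset_closure
  refine ⟨Fin.cons a (fun _ => b), ?_⟩
  rw [List.ofFn_succ]
  simp only [Fin.cons_zero, Fin.cons_succ, List.ofFn_const]
  show a = (List.replicate n b).foldl (fun b c => b⁻¹ * c⁻¹ * b * c) a
  rw [foldl_fix a b hab]

/-- **Negative answer to Q1, for every `k ≥ 4`.** There are a finite group `G` and an element `x`
such that for every `k ≥ 4` all left-normed commutators of weight `k` with entries in the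
solubilizer of `x` are trivial, but `γ_k(G) ≠ 1`. (The group used is `⟨x0, s0⟩`, a copy of
`PGL(2,7)` acting on 8 points, and `x` is an 8-cycle, whose solubilizer is dihedral of
order 16, of nilpotency class 3.) -/
theorem result :
    ∃ (G : Type) (_ : Group G) (_ : Finite G) (x : G), ∀ k : ℕ, 4 ≤ k →
      (∀ u : Fin k → G, (∀ i, u i ∈ solubilizer x) → leftNormed (List.ofFn u) = 1) ∧
        gamma G k ≠ ⊥ := by
  refine ⟨G0, inferInstance, inferInstance, xG, fun k hk => ⟨fun u hu => ?_, ?_⟩⟩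
  · apply law
    · simpa using hk
    · intro y hy
      rw [List.mem_ofFn] at hy
      obtain ⟨i, rfl⟩ := hy
      exact hu i
  · exact gamma_ne k (by omega)

end Pool.Agent.Results.MP_7555fa_al.SolubilizerLaw
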